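import Pool.Agent.Helper80.CB.Stmts

/-! # A_GAL: Galois descent -/

namespace Pool.Agent.Helper80.CB

open Polynomial

theorem gal_core (R S F L : Type) [CommRing R] [IsDomain R] [CommRing S] [IsDomain S] [Algebra R S]
    [Field F] [Field L] [CharZero F] [Algebra R F] [IsFractionRing R F] [Algebra S L]
    [IsFractionRing S L] [Algebra F L] [Algebra R L] [IsScalarTower R F L] [IsScalarTower R S L]
    (n : ℕ) (l : Fin n → S) (f : Polynomial R)
    (hf : f.map (algebraMap R S) = ∏ i, (Polynomial.X - Polynomial.C (l i)))
    (hadj : Algebra.adjoin R (Set.range l) = ⊤)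
    (p : S) (hp : ∀ σ : S →ₐ[R] S, σ p = p) :
    ∃ a b : R, b ≠ 0 ∧ algebraMap R S b * p = algebraMap R S a := by
  have hSL : Function.Injective (algebraMap S L) := IsFractionRing.injective S L
  let fF : F[X] := f.map (algebraMap R F)
  have hfL : fF.map (algebraMap F L) = ∏ i, (X - C (algebraMap S L (l i))) := by
    show (f.map (algebraMap R F)).map (algebraMap F L) = _
    rw [Polynomial.map_map, ← IsScalarTower.algebraMap_eq R F L,
      IsScalarTower.algebraMap_eq R S L, ← Polynomial.map_map, hf, Polynomial.map_prod]
    apply Finset.prod_congr rfl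
    intro i _
    simp
  have hroot : ∀ y : L, aeval y fF = 0 ↔ ∃ i, y = algebraMap S L (l i) := by
    intro y
    rw [aeval_def, ← eval_map, hfL, eval_prod, Finset.prod_eq_zero_iff]
    constructor
    · rintro ⟨i, _, h⟩
      rw [eval_sub, eval_X, eval_C, sub_eq_zero] at h
      exact ⟨i, h⟩
    · rintro ⟨i, h⟩
      refine ⟨i, Finset.mem_univ i, ?_⟩
      rw [eval_sub, eval_X, eval_C, h, sub_self]
  have hf0 : fF ≠ 0 := by
    intro h
    have h1 := hfL
    rw [h, Polynomial.map_zero] at h1
    exact (Monic.ne_zero (monic_prod_of_monic _ _ (fun i _ => monic_X_sub_C _))) h1.symm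
  have hsplits : (fF.map (algebraMap F L)).Splits := by
    rw [hfL]
    exact Splits.prod (fun i _ => Splits.X_sub_C _)
  have hmem : ∀ s : S, algebraMap S L s ∈ IntermediateField.adjoin F (fF.rootSet L) := by
    intro s
    have hs : s ∈ Algebra.adjoin R (Set.range l) := by rw [hadj]; trivial
    induction hs using Algebra.adjoin_induction with
    | mem z hz =>
      obtain ⟨i, rfl⟩ := hz
      apply IntermediateField.subset_adjoin
      rw [mem_rootSet]
      exact ⟨hf0, (hroot _).2 ⟨i, rfl⟩⟩
    | algebraMap r =>
      rw [← IsScalarTower.algebraMap_apply R S L, IsScalarTower.algebraMap_apply R F L]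
      exact IntermediateField.algebraMap_mem _ _
    | add a b _ _ ha hb => rw [map_add]; exact add_mem ha hb
    | mul a b _ _ ha hb => rw [map_mul]; exact mul_mem ha hb
  have htop : IntermediateField.adjoin F (fF.rootSet L) = ⊤ := by
    rw [eq_top_iff]
    intro z _
    obtain ⟨a, b, hb, rfl⟩ := IsFractionRing.div_surjective (A := S) z
    exact div_mem (hmem a) (hmem b)
  have hsf : IsSplittingField F L fF :=
    isSplittingField_iff_intermediateField.2 ⟨hsplits, htop⟩
  have hfd : FiniteDimensional F L := IsSplittingField.finiteDimensional L fF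
  have hnorm : Normal F L := Normal.of_isSplittingField fF
  have hgal : IsGalois F L := ⟨⟩
  have hbot : algebraMap S L p ∈ (⊥ : IntermediateField F L) := by
    rw [IsGalois.mem_bot_iff_fixed]
    intro σ
    -- `σ` restricts to an endomorphism of `S`
    have hσ : ∀ s : S, ∃ s' : S, algebraMap S L s' = σ (algebraMap S L s) := by
      intro s
      have hs : s ∈ Algebra.adjoin R (Set.range l) := by rw [hadj]; trivial
      induction hs using Algebra.adjoin_induction with
      | mem z hz =>
        obtain ⟨i, rfl⟩ := hz
        have h1 : aeval (σ (algebraMap S L (l i))) fF = 0 := by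
          have h2 : aeval (algebraMap S L (l i)) fF = 0 := (hroot _).2 ⟨i, rfl⟩
          have h3 := Polynomial.aeval_algHom_apply σ.toAlgHom (algebraMap S L (l i)) fF
          rw [h2, map_zero] at h3
          exact h3
        obtain ⟨j, hj⟩ := (hroot _).1 h1
        exact ⟨l j, hj.symm⟩
      | algebraMap r =>
        refine ⟨algebraMap R S r, ?_⟩
        rw [← IsScalarTower.algebraMap_apply R S L, IsScalarTower.algebraMap_apply R F L,
          AlgEquiv.commutes]
      | add a b _ _ ha hb =>
        obtain ⟨a', ha'⟩ := ha
        obtain ⟨b', hb'⟩ := hb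
        exact ⟨a' + b', by rw [map_add, map_add, map_add, ha', hb']⟩
      | mul a b _ _ ha hb =>
        obtain ⟨a', ha'⟩ := ha
        obtain ⟨b', hb'⟩ := hb
        exact ⟨a' * b', by rw [map_mul, map_mul, map_mul, ha', hb']⟩
    choose τ hτ using hσ
    let τ' : S →ₐ[R] S :=
      { toFun := τ
        map_one' := hSL (by rw [hτ, map_one, map_one])
        map_mul' := fun a b => hSL (by rw [hτ, map_mul, map_mul, map_mul, hτ, hτ])
        map_zero' := hSL (by rw [hτ, map_zero, map_zero])
        map_add' := fun a b => hSL (by rw [hτ, map_add, map_add, map_add, hτ, hτ])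
        commutes' := fun r => hSL (by
          rw [hτ, ← IsScalarTower.algebraMap_apply R S L, IsScalarTower.algebraMap_apply R F L,
            AlgEquiv.commutes]) }
    have h4 : τ p = p := hp τ'
    rw [← hτ p, h4]
  obtain ⟨z, hz⟩ := IntermediateField.mem_bot.1 hbot
  obtain ⟨a, b, hb, rfl⟩ := IsFractionRing.div_surjective (A := R) z
  refine ⟨a, b, nonZeroDivisors.ne_zero hb, ?_⟩
  apply hSL
  rw [map_mul, ← hz, ← IsScalarTower.algebraMap_apply R S L, ← IsScalarTower.algebraMap_apply R S L,
    IsScalarTower.algebraMap_apply R F L, IsScalarTower.algebraMap_apply R F L, ← map_mul]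
  congr 1
  have hb' : algebraMap R F b ≠ 0 := by
    rw [Ne, map_eq_zero_iff _ (IsFractionRing.injective R F)]
    exact nonZeroDivisors.ne_zero hb
  field_simp

theorem st_GAL : ST_GAL := by
  intro R S _ _ _ _ _ _ hinj n l f hf hadj p hp
  have hfs : FaithfulSMul R S := (faithfulSMul_iff_algebraMap_injective R S).2 hinj
  have hinjL : Function.Injective (algebraMap R (FractionRing S)) := by
    rw [IsScalarTower.algebraMap_eq R S (FractionRing S)]
    exact (IsFractionRing.injective S (FractionRing S)).comp hinj
  have hfs2 : FaithfulSMul R (FractionRing S) :=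
    (faithfulSMul_iff_algebraMap_injective R _).2 hinjL
  let ia : Algebra (FractionRing R) (FractionRing S) := FractionRing.liftAlgebra R (FractionRing S)
  have hst : IsScalarTower R (FractionRing R) (FractionRing S) :=
    FractionRing.isScalarTower_liftAlgebra R (FractionRing S)
  have hchR : CharZero R := by
    refine ⟨fun a b hab => ?_⟩
    have : ((a : ℕ) : S) = (b : S) := by
      have := congrArg (algebraMap R S) hab
      simpa using this
    exact_mod_cast this
  have hch : CharZero (FractionRing R) := by
    refine ⟨fun a b hab => ?_⟩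
    have h1 : algebraMap R (FractionRing R) (a : R) = algebraMap R (FractionRing R) (b : R) := by
      simpa using hab
    have h2 := IsFractionRing.injective R (FractionRing R) h1
    exact_mod_cast h2
  exact gal_core R S (FractionRing R) (FractionRing S) n l f hf hadj p hp

end Pool.Agent.Helper80.CB
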