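import Pool.Agent.Helper80.CB.Stmts

/-! # A_LIFT: integrality lift -/

namespace Pool.Agent.Helper80.CB

open Polynomial

theorem st_LIFT : ST_LIFT := by
  intro U S _ _ _ _ _ R res hinj a ha b hb hb0 p hp hab
  obtain ⟨f, hf1, hf2, hf3⟩ := hp
  have h1 : eval₂ res (res b * p) (scaleRoots f b) = 0 := by
    apply scaleRoots_eval₂_eq_zero
    rw [← eval_map]; exact hf3
  rw [hab, eval₂_at_apply] at h1
  have hmem : (scaleRoots f b).eval a ∈ R := by
    rw [eval_eq_sum_range]
    apply Subring.sum_mem
    intro i _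
    rw [coeff_scaleRoots]
    exact R.mul_mem (R.mul_mem (hf2 i) (R.pow_mem hb _)) (R.pow_mem ha _)
  have h2 : (scaleRoots f b).eval a = 0 := hinj _ hmem h1
  have hb' : algebraMap U (FractionRing U) b ≠ 0 := by
    rw [Ne, map_eq_zero_iff _ (IsFractionRing.injective U (FractionRing U))]
    exact hb0
  have h3 : IsIntegral U (algebraMap U (FractionRing U) a / algebraMap U (FractionRing U) b) := by
    refine ⟨f, hf1, ?_⟩
    have h4 := scaleRoots_eval₂_mul (algebraMap U (FractionRing U))
      (algebraMap U (FractionRing U) a / algebraMap U (FractionRing U) b) b (p := f)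
    rw [mul_div_cancel₀ _ hb', eval₂_at_apply, h2, map_zero] at h4
    exact (mul_eq_zero.1 h4.symm).resolve_left (pow_ne_zero _ hb')
  obtain ⟨F, hF⟩ := (IsIntegrallyClosed.isIntegral_iff (R := U)).1 h3
  refine ⟨F, ?_⟩
  apply IsFractionRing.injective U (FractionRing U)
  rw [map_mul, hF, mul_div_cancel₀ _ hb']

end Pool.Agent.Helper80.CB
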