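import Pool.Agent.Helper80.CB.Stmts

/-! # A_REST: the Chevalley restriction theorem -/

namespace Pool.Agent.Helper80.CB

open Matrix MvPolynomial

section general

variable {q q' : ℕ} {T T' : Type} [AddCommGroup T] [Module ℝ T] [AddCommGroup T'] [Module ℝ T']

/-- evaluation at a point as a ring homomorphism -/
noncomputable def rest_ev (b : Module.Basis (Fin q) ℝ T) (x : T) :
    MvPolynomial (Fin q) ℝ →+* ℝ := MvPolynomial.eval (fun i => b.repr x i)

theorem rest_ev_apply (b : Module.Basis (Fin q) ℝ T) (x : T) (P : MvPolynomial (Fin q) ℝ) :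
    rest_ev b x P = val b x P := rfl

theorem rest_mul (b : Module.Basis (Fin q) ℝ T) (x : T) (P Q : MvPolynomial (Fin q) ℝ) :
    val b x (P * Q) = val b x P * val b x Q := (rest_ev b x).map_mul P Q

theorem rest_add (b : Module.Basis (Fin q) ℝ T) (x : T) (P Q : MvPolynomial (Fin q) ℝ) :
    val b x (P + Q) = val b x P + val b x Q := (rest_ev b x).map_add P Q

theorem rest_sub (b : Module.Basis (Fin q) ℝ T) (x : T) (P Q : MvPolynomial (Fin q) ℝ) :
    val b x (P - Q) = val b x P - val b x Q := (rest_ev b x).map_sub P Q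

theorem rest_zero (b : Module.Basis (Fin q) ℝ T) (x : T) :
    val b x (0 : MvPolynomial (Fin q) ℝ) = 0 := (rest_ev b x).map_zero

theorem rest_ext (b : Module.Basis (Fin q) ℝ T) (P Q : MvPolynomial (Fin q) ℝ)
    (h : ∀ x, val b x P = val b x Q) : P = Q := by
  apply MvPolynomial.funext
  intro a
  have h1 := h (b.equivFun.symm a)
  have h2 : (fun i => b.repr (b.equivFun.symm a) i) = a := by
    have h3 : b.equivFun (b.equivFun.symm a) = a := b.equivFun.apply_symm_apply a
    funext i
    have := congrFun h3 i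
    rwa [Module.Basis.equivFun_apply] at this
  unfold val at h1
  rw [h2] at h1
  exact h1

/-- pull-back of polynomials along a linear map -/
noncomputable def rest_pb (b : Module.Basis (Fin q) ℝ T) (b' : Module.Basis (Fin q') ℝ T')
    (φ : T →ₗ[ℝ] T') : MvPolynomial (Fin q') ℝ →ₐ[ℝ] MvPolynomial (Fin q) ℝ :=
  aeval (fun i => ∑ s, C (b'.repr (φ (b s)) i) * X s)

theorem rest_pb_val (b : Module.Basis (Fin q) ℝ T) (b' : Module.Basis (Fin q') ℝ T')
    (φ : T →ₗ[ℝ] T') (x : T) (P : MvPolynomial (Fin q') ℝ) :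
    val b x (rest_pb b b' φ P) = val b' (φ x) P := by
  have h1 : (rest_ev b x).comp (rest_pb b b' φ).toRingHom = rest_ev b' (φ x) := by
    apply MvPolynomial.ringHom_ext
    · intro a
      have h2 : (rest_pb b b' φ).toRingHom (C a) = C a := by
        show rest_pb b b' φ (C a) = C a
        exact (rest_pb b b' φ).commutes a
      rw [RingHom.comp_apply, h2]
      simp [rest_ev]
    · intro i
      have h2 : (rest_pb b b' φ).toRingHom (X i) = ∑ s, C (b'.repr (φ (b s)) i) * X s := by
        show rest_pb b b' φ (X i) = _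
        unfold rest_pb
        rw [aeval_X]
      rw [RingHom.comp_apply, h2]
      have h3 : φ x = ∑ s, b.repr x s • φ (b s) := by
        conv_lhs => rw [← b.sum_repr x]
        rw [map_sum]
        apply Finset.sum_congr rfl
        intro s _
        rw [map_smul]
      simp only [rest_ev, map_sum, map_mul, eval_C, eval_X]
      rw [h3, map_sum, Finsupp.finsetSum_apply]
      apply Finset.sum_congr rfl
      intro s _
      rw [map_smul, Finsupp.smul_apply, smul_eq_mul, mul_comm]
  have h4 := congrArg (fun f => f P) h1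
  exact h4

theorem rest_linP (c : Module.Basis (Fin q) ℝ T) (l : T →ₗ[ℝ] ℝ) (x : T) :
    val c x (linP c l) = l x := by
  unfold val linP
  simp only [map_sum, map_mul, eval_C, eval_X]
  conv_rhs => rw [← c.sum_repr x]
  rw [map_sum]
  apply Finset.sum_congr rfl
  intro s _
  rw [map_smul, smul_eq_mul, mul_comm]

theorem rest_coord (c : Module.Basis (Fin q) ℝ T) (n : ℕ) (l : Fin n → T →ₗ[ℝ] ℝ)
    (hl : ∀ x, (∀ i, l i x = 0) → x = 0) (s : Fin q) :
    ∃ a : Fin n → ℝ, (X s : MvPolynomial (Fin q) ℝ) = ∑ i, C (a i) * linP c (l i) := by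
  let Λ : T →ₗ[ℝ] (Fin n → ℝ) := LinearMap.pi l
  have hΛ : LinearMap.ker Λ = ⊥ := by
    rw [LinearMap.ker_eq_bot']
    intro x hx
    exact hl x (fun i => congrFun hx i)
  obtain ⟨M, hM⟩ := Λ.exists_leftInverse_of_injective hΛ
  refine ⟨fun i => c.repr (M (Pi.single i 1)) s, ?_⟩
  apply rest_ext c
  intro x
  have h1 : val c x (X s) = c.repr x s := by unfold val; rw [eval_X]
  have h2 : val c x (∑ i, C (c.repr (M (Pi.single i 1)) s) * linP c (l i)) =
      ∑ i, c.repr (M (Pi.single i 1)) s * l i x := by
    have h3 : val c x (∑ i, C (c.repr (M (Pi.single i 1)) s) * linP c (l i)) =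
        ∑ i, val c x (C (c.repr (M (Pi.single i 1)) s) * linP c (l i)) := by
      rw [← rest_ev_apply, map_sum]; rfl
    rw [h3]
    apply Finset.sum_congr rfl
    intro i _
    rw [rest_mul, rest_linP]
    congr 1
    unfold val
    rw [eval_C]
  rw [h1, h2]
  have h4 : x = M (Λ x) := by
    have := congrArg (fun f => f x) hM
    exact this.symm
  have h5 : Λ x = ∑ i, (l i x) • (Pi.single i (1 : ℝ) : Fin n → ℝ) := by
    funext j
    rw [Finset.sum_apply]
    simp only [Pi.smul_apply, smul_eq_mul]
    rw [Finset.sum_eq_single j]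
    · rw [Pi.single_eq_same, mul_one]; rfl
    · intro i _ hij
      rw [Pi.single_eq_of_ne (Ne.symm hij), mul_zero]
    · intro h; exact absurd (Finset.mem_univ j) h
  conv_lhs => rw [h4, h5]
  rw [map_sum, map_sum, Finsupp.finsetSum_apply]
  apply Finset.sum_congr rfl
  intro i _
  rw [map_smul, map_smul, Finsupp.smul_apply, smul_eq_mul, mul_comm]

end general

/-- the algebra of invariants -/
noncomputable def rest_R {n q : ℕ} (D : Cpt n) (b : Module.Basis (Fin q) ℝ D.h) :
    Subalgebra ℝ (MvPolynomial (Fin q) ℝ) where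
  carrier := {P | InvP D b P}
  mul_mem' := by
    intro P Q hP hQ g hg X
    rw [rest_mul, rest_mul, hP g hg X, hQ g hg X]
  add_mem' := by
    intro P Q hP hQ g hg X
    rw [rest_add, rest_add, hP g hg X, hQ g hg X]
  algebraMap_mem' := by
    intro a g hg X
    show val b _ (C a) = val b X (C a)
    unfold val
    rw [eval_C, eval_C]

theorem rest_mem {n q : ℕ} (D : Cpt n) (b : Module.Basis (Fin q) ℝ D.h)
    (P : MvPolynomial (Fin q) ℝ) : P ∈ rest_R D b ↔ InvP D b P := Iff.rfl

/-- conjugation as a linear map -/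
noncomputable def rest_Ad {n : ℕ} (D : Cpt n) (g : Mat n) (hg : g ∈ D.S) : D.h →ₗ[ℝ] D.h where
  toFun X := ⟨g * X * gᴴ, D.Ad_mem g hg X X.2⟩
  map_add' X Y := by
    apply Subtype.ext
    show g * ((X : Mat n) + Y) * gᴴ = g * X * gᴴ + g * Y * gᴴ
    rw [mul_add, add_mul]
  map_smul' a X := by
    apply Subtype.ext
    show g * (a • (X : Mat n)) * gᴴ = a • (g * X * gᴴ)
    rw [mul_smul_comm, smul_mul_assoc]

theorem rest_real {n : ℕ} (D : Cpt n) {x : Mat n} (hx : x ∈ D.h) (i : Fin n) :
    (((x i i).re : ℝ) : ℂ) = x i i := by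
  have h := D.herm x hx
  have h1 := congrFun (congrFun h i) i
  rw [Matrix.conjTranspose_apply] at h1
  exact Complex.conj_eq_iff_re.1 h1

theorem st_REST (hREG : ST_REG) (hFUS : ST_FUS) (hWMK : ST_WMK) (hSEP : ST_SEP) (hCHP : ST_CHP)
    (hGAL : ST_GAL) (hLIFT : ST_LIFT) (hLINEND : ST_LINEND) (hCOVER : ST_COVER)
    (hWFIN : ST_WFIN) : ST_REST := by
  intro n q r D t ht b c p hp
  classical
  -- the restriction map
  let incl : t →ₗ[ℝ] D.h := Submodule.inclusion ht.le
  have hincl : ∀ x : t, incl x = ⟨x, ht.le x.2⟩ := fun _ => rfl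
  let res : MvPolynomial (Fin q) ℝ →ₐ[ℝ] MvPolynomial (Fin r) ℝ := rest_pb c b incl
  have hres : ∀ (x : t) P, val c x (res P) = val b (⟨x, ht.le x.2⟩ : D.h) P := fun x P =>
    rest_pb_val c b incl x P
  -- injectivity on invariants
  have hinj : ∀ P, InvP D b P → res P = 0 → P = 0 := by
    intro P hP hP0
    apply rest_ext b
    intro X
    obtain ⟨g, hg, hgX⟩ := hREG n D t ht X X.2
    have h1 := hP g hg X
    have h2 := hres ⟨g * X * gᴴ, hgX⟩ P
    rw [hP0, rest_zero] at h2
    rw [rest_zero, ← h1]
    exact h2.symm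
  -- separation by the weights
  have hsep : ∀ x : t, (∀ i, wt t i x = 0) → x = 0 := by
    intro x hx
    apply Subtype.ext
    funext i j
    by_cases hij : i = j
    · subst hij
      have h1 : ((x : Mat n) i i).re = 0 := hx i
      rw [← rest_real D (ht.le x.2) i, h1]
      simp
    · exact ht.diag x x.2 i j hij
  -- the invariants
  let R := rest_R D b
  let ia : Algebra R (MvPolynomial (Fin r) ℝ) := (res.toRingHom.comp R.val.toRingHom).toAlgebra
  have hia : ∀ P : R, algebraMap R (MvPolynomial (Fin r) ℝ) P = res P := fun _ => rfl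
  have hst : IsScalarTower ℝ R (MvPolynomial (Fin r) ℝ) := IsScalarTower.of_algebraMap_eq
    (fun a => by rw [hia]; exact (res.commutes a).symm)
  have hinjR : Function.Injective (algebraMap R (MvPolynomial (Fin r) ℝ)) := by
    rw [injective_iff_map_eq_zero]
    intro P hP
    exact Subtype.ext (hinj P P.2 hP)
  -- the characteristic polynomial
  choose Pj hPj1 hPj2 using fun j => hCHP n q D b j
  let f : Polynomial R := ∑ j ∈ Finset.range (n + 1),
    Polynomial.C (⟨Pj j, hPj1 j⟩ : R) * Polynomial.X ^ j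
  let L : Fin n → MvPolynomial (Fin r) ℝ := fun i => linP c (wt t i)
  have hf : f.map (algebraMap R (MvPolynomial (Fin r) ℝ)) =
      ∏ i, (Polynomial.X - Polynomial.C (L i)) := by
    -- compare at each point
    have key : ∀ x : t, (f.map (algebraMap R (MvPolynomial (Fin r) ℝ))).map (rest_ev c x) =
        (∏ i, (Polynomial.X - Polynomial.C (L i))).map (rest_ev c x) := by
      intro x
      have hinjC : Function.Injective (Polynomial.map Complex.ofRealHom) :=
        Polynomial.map_injective _ Complex.ofRealHom.injective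
      apply hinjC
      have h1 : ((f.map (algebraMap R (MvPolynomial (Fin r) ℝ))).map (rest_ev c x)).map
          Complex.ofRealHom = (x : Mat n).charpoly := by
        have h2 : (x : Mat n).charpoly = ∑ j ∈ Finset.range (n + 1),
            Polynomial.C ((x : Mat n).charpoly.coeff j) * Polynomial.X ^ j := by
          conv_lhs => rw [Polynomial.as_sum_range_C_mul_X_pow (x : Mat n).charpoly]
          rw [Matrix.charpoly_natDegree_eq_dim, Fintype.card_fin]
        rw [h2]
        simp only [f, Polynomial.map_sum, Polynomial.map_mul, Polynomial.map_C,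
          Polynomial.map_pow, Polynomial.map_X]
        apply Finset.sum_congr rfl
        intro j _
        congr 2
        rw [hia, rest_ev_apply, hres]
        exact (hPj2 j ⟨x, ht.le x.2⟩).symm
      rw [h1]
      have h3 : (x : Mat n) = Matrix.diagonal (fun i => (x : Mat n) i i) := by
        funext i j
        by_cases hij : i = j
        · subst hij; rw [Matrix.diagonal_apply_eq]
        · rw [Matrix.diagonal_apply_ne _ hij]; exact ht.diag x x.2 i j hij
      have h4 : (x : Mat n).charpoly = ∏ i, (Polynomial.X - Polynomial.C ((x : Mat n) i i)) := by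
        conv_lhs => rw [h3]
        exact Matrix.charpoly_diagonal _
      rw [h4]
      simp only [Polynomial.map_prod, Polynomial.map_sub, Polynomial.map_X, Polynomial.map_C]
      apply Finset.prod_congr rfl
      intro i _
      congr 2
      rw [rest_ev_apply, rest_linP]
      exact (rest_real D (ht.le x.2) i).symm
    apply Polynomial.ext
    intro j
    apply rest_ext c
    intro x
    have h5 := congrArg (fun g => Polynomial.coeff g j) (key x)
    simp only [Polynomial.coeff_map] at h5
    rw [← rest_ev_apply, ← rest_ev_apply]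
    rw [Polynomial.coeff_map]
    exact h5
  have hadj : Algebra.adjoin R (Set.range L) = ⊤ := by
    rw [eq_top_iff]
    intro P _
    have hX : ∀ s, (X s : MvPolynomial (Fin r) ℝ) ∈ Algebra.adjoin R (Set.range L) := by
      intro s
      obtain ⟨a, ha⟩ := rest_coord c n (fun i => wt t i) hsep s
      rw [ha]
      apply Subalgebra.sum_mem
      intro i _
      apply Subalgebra.mul_mem
      · have : (C (a i) : MvPolynomial (Fin r) ℝ) =
            algebraMap R (MvPolynomial (Fin r) ℝ) (algebraMap ℝ R (a i)) := by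
          rw [← IsScalarTower.algebraMap_apply]; rfl
        rw [this]
        exact Subalgebra.algebraMap_mem _ _
      · exact Algebra.subset_adjoin ⟨i, rfl⟩
    induction P using MvPolynomial.induction_on with
    | C a =>
      have : (C a : MvPolynomial (Fin r) ℝ) =
          algebraMap R (MvPolynomial (Fin r) ℝ) (algebraMap ℝ R a) := by
        rw [← IsScalarTower.algebraMap_apply]; rfl
      rw [this]
      exact Subalgebra.algebraMap_mem _ _
    | add P Q hP hQ => exact Subalgebra.add_mem _ (hP trivial) (hQ trivial)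
    | mul_X P s hP => exact Subalgebra.mul_mem _ (hP trivial) (hX s)
  -- `p` is fixed by all endomorphisms
  have hLroot : ∀ i, Polynomial.aeval (L i) f = 0 := by
    intro i
    rw [Polynomial.aeval_def, ← Polynomial.eval_map, hf, Polynomial.eval_prod,
      Finset.prod_eq_zero_iff]
    exact ⟨i, Finset.mem_univ i, by simp⟩
  have hfix : ∀ σ : MvPolynomial (Fin r) ℝ →ₐ[R] MvPolynomial (Fin r) ℝ, σ p = p := by
    intro σ
    have hσL : ∀ i, ∃ j, σ (L i) = L j := by
      intro i
      have h1 : Polynomial.aeval (σ (L i)) f = 0 := by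
        rw [Polynomial.aeval_algHom_apply, hLroot, map_zero]
      rw [Polynomial.aeval_def, ← Polynomial.eval_map, hf, Polynomial.eval_prod,
        Finset.prod_eq_zero_iff] at h1
      obtain ⟨j, _, hj⟩ := h1
      rw [Polynomial.eval_sub, Polynomial.eval_X, Polynomial.eval_C, sub_eq_zero] at hj
      exact ⟨j, hj⟩
    obtain ⟨g, hg⟩ := hLINEND r n t c (fun i => wt t i) hsep (σ.restrictScalars ℝ) hσL
    have hg' : ∀ P x, val c x (σ P) = val c (g x) P := hg
    have hgw : ∀ x, ∃ w ∈ weyl D t, g x = w x := by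
      intro x
      by_contra hcon
      have h2 : ∀ g' ∈ D.S, g' * ((⟨x, ht.le x.2⟩ : D.h) : Mat n) * g'ᴴ ≠
          ((⟨g x, ht.le (g x).2⟩ : D.h) : Mat n) := by
        intro g' hg'S heq
        apply hcon
        have h3 : g' * (x : Mat n) * g'ᴴ = ((g x : t) : Mat n) := heq
        obtain ⟨m, hm, hmt, hmx⟩ := hFUS n D t ht x x.2 g' hg'S (by rw [h3]; exact (g x).2)
        obtain ⟨w, hw, hwx⟩ := hWMK n D t ht m hm hmt
        refine ⟨w, hw, ?_⟩
        apply Subtype.ext
        rw [← hwx x, hmx, h3]
      obtain ⟨P, hP1, hP2⟩ := hSEP n q D b _ _ h2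
      apply hP2
      rw [← hres x P, ← hres (g x) P, ← hg']
      have h4 : σ (res P) = res P := by
        have := σ.commutes (⟨P, hP1⟩ : R)
        rw [hia] at this
        exact this
      rw [h4]
    have hfin : Module.Finite ℝ t := Module.Finite.of_basis c
    obtain ⟨w, hw, hgw2⟩ := hCOVER t (weyl D t) (hWFIN n D t ht) g hgw
    apply rest_ext c
    intro x
    rw [hg', hgw2 x]
    exact hp w hw x
  obtain ⟨a, b', hb'0, hab⟩ := hGAL R (MvPolynomial (Fin r) ℝ) hinjR n L f hf hadj p hfix
  -- integrality of `p`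
  have hfmon : (f.map (algebraMap R (MvPolynomial (Fin r) ℝ))).Monic := by
    rw [hf]
    exact Polynomial.monic_prod_of_monic _ _ (fun i _ => Polynomial.monic_X_sub_C _)
  have hfmonic : f.Monic := Polynomial.monic_of_injective hinjR hfmon
  have hint' : ∀ P : MvPolynomial (Fin r) ℝ, IsIntegral R P := by
    intro P
    have hpmem : P ∈ Algebra.adjoin R (Set.range L) := by rw [hadj]; trivial
    induction hpmem using Algebra.adjoin_induction with
    | mem z hz =>
      obtain ⟨i, rfl⟩ := hz
      exact ⟨f, hfmonic, hLroot i⟩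
    | algebraMap r => exact isIntegral_algebraMap
    | add a b _ _ ha hb => exact ha.add hb
    | mul a b _ _ ha hb => exact ha.mul hb
  obtain ⟨h, hh1, hh2⟩ := hint' p
  obtain ⟨F, hF⟩ := hLIFT (MvPolynomial (Fin q) ℝ) (MvPolynomial (Fin r) ℝ) R.toSubring
    res.toRingHom (fun x hx hx0 => hinj x hx hx0) a a.2 b' b'.2
    (fun hb => hb'0 (Subtype.ext hb)) p
    ⟨h.map R.val.toRingHom, hh1.map _, fun i => by
        rw [Polynomial.coeff_map]
        exact (h.coeff i).2, by
        rw [Polynomial.map_map]
        rw [Polynomial.eval_map]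
        exact hh2⟩ hab
  have hb'ne : (b' : MvPolynomial (Fin q) ℝ) ≠ 0 := fun hb => hb'0 (Subtype.ext hb)
  refine ⟨F, ?_, ?_⟩
  · intro g hg Y
    -- `F ∘ Ad g = F`
    have hAd : ∀ P (Z : D.h), val b Z (rest_pb b b (rest_Ad D g hg) P) =
        val b ⟨g * Z * gᴴ, D.Ad_mem g hg Z Z.2⟩ P := fun P Z =>
      rest_pb_val b b (rest_Ad D g hg) Z P
    have h1 : (b' : MvPolynomial (Fin q) ℝ) * (rest_pb b b (rest_Ad D g hg) F - F) = 0 := by
      apply rest_ext b
      intro Z
      rw [rest_mul, rest_sub, hAd, rest_zero, mul_sub]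
      have h2 : val b Z (b' : MvPolynomial (Fin q) ℝ) =
          val b ⟨g * Z * gᴴ, D.Ad_mem g hg Z Z.2⟩ (b' : MvPolynomial (Fin q) ℝ) :=
        (b'.2 g hg Z).symm
      have h3 : val b Z (a : MvPolynomial (Fin q) ℝ) =
          val b ⟨g * Z * gᴴ, D.Ad_mem g hg Z Z.2⟩ (a : MvPolynomial (Fin q) ℝ) :=
        (a.2 g hg Z).symm
      rw [← rest_mul b Z, hF, h2, ← rest_mul, hF, ← h3, sub_self]
    have h4 := (mul_eq_zero.1 h1).resolve_left hb'ne
    rw [← hAd, sub_eq_zero.1 h4]
  · intro x
    have h1 : res F = p := by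
      have h2 : res b' * res F = res b' * p := by
        rw [← map_mul, hF]
        exact hab.symm
      have h3 : res b' ≠ 0 := fun h0 => hb'ne (hinj b' b'.2 h0)
      exact mul_left_cancel₀ h3 h2
    rw [← hres, h1]

end Pool.Agent.Helper80.CB
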