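import Pool.Agent.Helper80.CB.Stmts

/-! # A_COVER -/

namespace Pool.Agent.Helper80.CB

theorem st_COVER : ST_COVER := by
  intro T _ _ _ W hW g hg
  let p : W → Subspace ℝ T := fun w => LinearMap.ker (g - ((w : T ≃ₗ[ℝ] T) : T →ₗ[ℝ] T))
  have hcov : ⋃ w, (p w : Set T) = Set.univ := by
    rw [Set.eq_univ_iff_forall]
    intro x
    obtain ⟨w, hw, hx⟩ := hg x
    rw [Set.mem_iUnion]
    refine ⟨⟨w, hw⟩, ?_⟩
    show (g - (w : T →ₗ[ℝ] T)) x = 0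
    rw [LinearMap.sub_apply, hx]
    exact sub_self _
  obtain ⟨w, hw⟩ := Subspace.exists_eq_top_of_iUnion_eq_univ hcov
  refine ⟨w, w.2, fun x => ?_⟩
  have hx : x ∈ p w := by rw [hw]; trivial
  have h1 : (g - ((w : T ≃ₗ[ℝ] T) : T →ₗ[ℝ] T)) x = 0 := hx
  rw [LinearMap.sub_apply, sub_eq_zero] at h1
  exact h1

end Pool.Agent.Helper80.CB
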